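import Mathlib

/-!
# Sets of real numbers closed under multiplication by two square roots
-/

set_option autoImplicit false

namespace Pool.Agent.RepJump

theorem indep_two {n : ℕ} (hn : ¬ IsSquare n) {a b : ℚ} (h : (a : ℝ) + b * √(n : ℝ) = 0) :
    a = 0 ∧ b = 0 := by
  have hirr : Irrational √(n : ℝ) := irrational_sqrt_natCast_iff.2 hn
  have hb : b = 0 := by
    by_contra hb
    refine hirr ⟨-a / b, ?_⟩
    have hb' : (b : ℝ) ≠ 0 := by exact_mod_cast hb
    push_cast
    field_simp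
    linarith
  subst hb
  refine ⟨?_, rfl⟩
  have : (a : ℝ) = 0 := by simpa using h
  exact_mod_cast this

theorem indep_four {n m : ℕ} (hn : ¬ IsSquare n) (hm : ¬ IsSquare m) (hnm : ¬ IsSquare (n * m))
    {a b c d : ℚ} (h : (a : ℝ) + b * √(n : ℝ) + √(m : ℝ) * (c + d * √(n : ℝ)) = 0) :
    a = 0 ∧ b = 0 ∧ c = 0 ∧ d = 0 := by
  have hsn : √(n : ℝ) * √(n : ℝ) = n := Real.mul_self_sqrt (Nat.cast_nonneg n)
  have hsm : √(m : ℝ) * √(m : ℝ) = m := Real.mul_self_sqrt (Nat.cast_nonneg m)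
  have hirm : Irrational √(m : ℝ) := irrational_sqrt_natCast_iff.2 hm
  have hirnm : Irrational √((n * m : ℕ) : ℝ) := irrational_sqrt_natCast_iff.2 hnm
  have hN : c ^ 2 - n * d ^ 2 = 0 := by
    by_contra hN
    have hN' : ((c ^ 2 - n * d ^ 2 : ℚ) : ℝ) ≠ 0 := by exact_mod_cast hN
    obtain ⟨N, hNdef⟩ : ∃ N : ℚ, N = c ^ 2 - n * d ^ 2 := ⟨_, rfl⟩
    rw [← hNdef] at hN hN'
    -- the square root of `m` is `p + q √n`
    obtain ⟨p, q, hpq⟩ : ∃ p q : ℚ, √(m : ℝ) = p + q * √(n : ℝ) := by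
      refine ⟨-(a * c - b * d * n) / N, -(b * c - a * d) / N, ?_⟩
      have e1 : √(m : ℝ) * (N : ℝ) = -(a * c - b * d * n) + -(b * c - a * d) * √(n : ℝ) := by
        have e2 : ((N : ℚ) : ℝ) = (c : ℝ) ^ 2 - n * (d : ℝ) ^ 2 := by
          rw [hNdef]; push_cast; ring
        rw [e2]
        linear_combination (c - d * √(n : ℝ)) * h + (b * d - √(m : ℝ) * (- d ^ 2)) * hsn
      push_cast
      field_simp
      linarith
    have e3 : ((m - p ^ 2 - q ^ 2 * n : ℚ) : ℝ) + ((-(2 * p * q) : ℚ) : ℝ) * √(n : ℝ) = 0 := by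
      push_cast
      have e4 := hsm
      rw [hpq] at e4
      linear_combination -e4 + (q : ℝ) ^ 2 * hsn
    have e5 := (indep_two hn e3).2
    have e6 : p = 0 ∨ q = 0 := by
      have : p * q = 0 := by linarith
      exact mul_eq_zero.1 this
    rcases e6 with e6 | e6
    · subst e6
      refine hirnm ⟨q * n, ?_⟩
      rw [Nat.cast_mul, Real.sqrt_mul (Nat.cast_nonneg n), hpq]
      push_cast
      linear_combination -(q : ℝ) * hsn
    · subst e6
      refine hirm ⟨p, ?_⟩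
      rw [hpq]
      push_cast
      ring
  have hcd : c = 0 ∧ d = 0 := by
    have hd : d = 0 := by
      by_contra hd
      have e1 : IsSquare ((n : ℚ)) := ⟨c / d, by field_simp; linarith⟩
      exact hn (by exact_mod_cast Rat.isSquare_natCast_iff.1 e1)
    subst hd
    refine ⟨?_, rfl⟩
    have : c ^ 2 = 0 := by linarith
    exact pow_eq_zero_iff (two_ne_zero) |>.1 this
  obtain ⟨rfl, rfl⟩ := hcd
  have h' : (a : ℝ) + b * √(n : ℝ) = 0 := by simpa using h
  obtain ⟨ha, hb⟩ := indep_two hn h'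
  exact ⟨ha, hb, rfl, rfl⟩

/-- A `ℚ`-space of real numbers, spanned by the values of `h`, which is closed under multiplication
by `√n` and `√m`, is zero or contains four independent values of `h`. -/
theorem four_of_closed {ι : Type} {n m : ℕ} (hn : ¬ IsSquare n) (hm : ¬ IsSquare m)
    (hnm : ¬ IsSquare (n * m)) (h : ι → ℝ)
    (h1 : ∀ i, √(n : ℝ) * h i ∈ Submodule.span ℚ (Set.range h))
    (h2 : ∀ i, √(m : ℝ) * h i ∈ Submodule.span ℚ (Set.range h)) {i₀ : ι} (h0 : h i₀ ≠ 0) :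
    ∃ k : Fin 4 → ι, LinearIndependent ℚ fun j => h (k j) := by
  set W := Submodule.span ℚ (Set.range h) with hW
  have hcl : ∀ x : ℝ, (∀ i, x * h i ∈ W) → ∀ w ∈ W, x * w ∈ W := by
    intro x hx w hw
    induction hw using Submodule.span_induction with
    | mem w hw =>
      obtain ⟨i, rfl⟩ := hw
      exact hx i
    | zero => simp
    | add a b _ _ ha hb => rw [mul_add]; exact W.add_mem ha hb
    | smul q a _ ha => rw [mul_smul_comm]; exact W.smul_mem q ha
  have w0 : h i₀ ∈ W := Submodule.subset_span ⟨i₀, rfl⟩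
  have w1 : √(n : ℝ) * h i₀ ∈ W := h1 i₀
  have w2 : √(m : ℝ) * h i₀ ∈ W := h2 i₀
  have w3 : √(n : ℝ) * (√(m : ℝ) * h i₀) ∈ W := hcl _ h1 _ w2
  let v : Fin 4 → W := ![⟨_, w0⟩, ⟨_, w1⟩, ⟨_, w2⟩, ⟨_, w3⟩]
  have hv : LinearIndependent ℚ v := by
    rw [Fintype.linearIndependent_iff]
    intro g hg
    have e1 := congrArg (fun x : W => (x : ℝ)) hg
    simp only [Fin.sum_univ_four, v, Matrix.cons_val_zero, Matrix.cons_val_one, Matrix.cons_val,
      Submodule.coe_add, Submodule.coe_smul, Submodule.coe_zero] at e1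
    simp only [Rat.smul_def] at e1
    have e2 : ((g 0 : ℝ) + g 1 * √(n : ℝ) + √(m : ℝ) * (g 2 + g 3 * √(n : ℝ))) * h i₀ = 0 := by
      rw [← e1]
      ring
    have e3 := (mul_eq_zero.1 e2).resolve_right h0
    obtain ⟨a0, a1, a2, a3⟩ := indep_four hn hm hnm e3
    intro i
    fin_cases i
    · exact a0
    · exact a1
    · exact a2
    · exact a3
  have hrank : (4 : Cardinal) ≤ Module.rank ℚ W := by
    have := hv.cardinal_le_rank
    simpa using this
  obtain ⟨b, hb1, hb2, hb3⟩ := exists_linearIndependent ℚ (Set.range h)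
  have hb4 : Module.rank ℚ W = Cardinal.mk b := by
    rw [hW, ← hb2]
    exact rank_span_set hb3
  rw [hb4] at hrank
  have hfin : Cardinal.mk (Fin 4) ≤ Cardinal.mk b := by simpa using hrank
  obtain ⟨e⟩ := Cardinal.le_def _ _ |>.1 hfin
  choose k hk using fun j : Fin 4 => hb1 (e j).2
  refine ⟨k, ?_⟩
  have e5 : (fun j => h (k j)) = fun j => ((e j : b) : ℝ) := funext hk
  rw [e5]
  exact hb3.comp e e.injective

end Pool.Agent.RepJump
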