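import Pool.Agent.RepJump.Sec

/-!
# Sections of compact convex sets
-/

set_option autoImplicit false

namespace Pool.Agent.RepJump

open MeasureTheory Filter Topology RepTile

/-- the section of `K` -/
def slice (K : Set E2) (L : E2 ≃ₗᵢ[ℝ] E2) (t : ℝ) : Set ℝ := {s : ℝ | L !₂[t, s] ∈ K}

theorem sec_eq (K : Set E2) (L : E2 ≃ₗᵢ[ℝ] E2) (t : ℝ) : sec K L t = (volume (slice K L t)).toReal :=
  rfl

theorem par_continuous (L : E2 ≃ₗᵢ[ℝ] E2) : Continuous (par L) := by
  unfold par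
  fun_prop

theorem slice_closed {K : Set E2} (hK : IsClosed K) (L : E2 ≃ₗᵢ[ℝ] E2) (t : ℝ) :
    IsClosed (slice K L t) := by
  have h : slice K L t = (fun s : ℝ => par L (t, s)) ⁻¹' K := rfl
  rw [h]
  exact hK.preimage ((par_continuous L).comp (by fun_prop))

/-- the plane set in the coordinates given by `L` -/
def cf (K : Set E2) (L : E2 ≃ₗᵢ[ℝ] E2) : Set (ℝ × ℝ) := par L ⁻¹' K

/-- the coordinates -/
noncomputable def inv (L : E2 ≃ₗᵢ[ℝ] E2) (x : E2) : ℝ × ℝ := (L.symm x 0, L.symm x 1)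

theorem par_inv (L : E2 ≃ₗᵢ[ℝ] E2) (x : E2) : par L (inv L x) = x := by
  have h : (!₂[L.symm x 0, L.symm x 1] : E2) = L.symm x := by
    ext i
    fin_cases i <;> simp
  show L !₂[L.symm x 0, L.symm x 1] = x
  rw [h, L.apply_symm_apply]

theorem inv_par (L : E2 ≃ₗᵢ[ℝ] E2) (p : ℝ × ℝ) : inv L (par L p) = p := by
  unfold inv par
  rw [L.symm_apply_apply]
  ext <;> simp

theorem cf_compact {K : Set E2} (hK : IsCompact K) (L : E2 ≃ₗᵢ[ℝ] E2) : IsCompact (cf K L) := by
  have h : cf K L = inv L '' K := by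
    ext p
    constructor
    · intro hp
      exact ⟨par L p, hp, inv_par L p⟩
    · rintro ⟨x, hx, rfl⟩
      show par L (inv L x) ∈ K
      rw [par_inv]
      exact hx
  rw [h]
  refine hK.image ?_
  unfold inv
  fun_prop

/-- convex combinations of sections -/
theorem slice_convex {K : Set E2} (hK : Convex ℝ K) (L : E2 ≃ₗᵢ[ℝ] E2) {t u s v a b : ℝ}
    (hs : s ∈ slice K L t) (hv : v ∈ slice K L u) (ha : 0 ≤ a) (hb : 0 ≤ b) (hab : a + b = 1) :
    a * s + b * v ∈ slice K L (a * t + b * u) := by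
  have h := hK hs hv ha hb hab
  have e : (!₂[a * t + b * u, a * s + b * v] : E2) = a • !₂[t, s] + b • !₂[u, v] := by
    ext i
    fin_cases i <;> simp
  show L !₂[a * t + b * u, a * s + b * v] ∈ K
  rw [e, map_add, map_smul, map_smul]
  exact h

/-- A section of a compact convex set is an interval. -/
theorem slice_Icc {K : Set E2} (hK : Convex ℝ K) (hKc : IsCompact K) (L : E2 ≃ₗᵢ[ℝ] E2) {t : ℝ}
    (hne : (slice K L t).Nonempty) : ∃ a b : ℝ, a ≤ b ∧ slice K L t = Set.Icc a b ∧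
      sec K L t = b - a := by
  have hcl := slice_closed hKc.isClosed L t
  have hbd : Bornology.IsBounded (slice K L t) := by
    have h1 := (cf_compact hKc L).image continuous_snd
    refine h1.isBounded.subset fun s hs => ⟨(t, s), hs, rfl⟩
  have hc : IsCompact (slice K L t) := Metric.isCompact_of_isClosed_isBounded hcl hbd
  have hconv : Convex ℝ (slice K L t) := by
    intro x hx y hy a b ha hb hab
    have h := slice_convex hK L hx hy ha hb hab
    have e : a * t + b * t = t := by rw [← add_mul, hab, one_mul]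
    rw [e] at h
    exact h
  obtain ⟨a, b, hI⟩ : ∃ a b : ℝ, slice K L t = Set.Icc a b := by
    have h2 := eq_Icc_of_connected_compact ⟨hne, hconv.isPreconnected⟩ hc
    exact ⟨_, _, h2⟩
  have hab : a ≤ b := by
    obtain ⟨x, hx⟩ := hne
    rw [hI] at hx
    exact hx.1.trans hx.2
  refine ⟨a, b, hab, hI, ?_⟩
  rw [sec_eq, hI, Real.volume_Icc, ENNReal.toReal_ofReal (by linarith)]

theorem sec_nonneg (K : Set E2) (L : E2 ≃ₗᵢ[ℝ] E2) (t : ℝ) : 0 ≤ sec K L t := ENNReal.toReal_nonneg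

theorem sec_mono {K : Set E2} (hb : Bornology.IsBounded K) (L : E2 ≃ₗᵢ[ℝ] E2) {t : ℝ} {s : Set ℝ}
    (h : s ⊆ slice K L t) : (volume s).toReal ≤ sec K L t :=
  ENNReal.toReal_mono (sec_finite hb L t) (measure_mono h)

/-- lower bound for the sections of a compact convex set -/
theorem sec_lower {K : Set E2} (hK : Convex ℝ K) (hKc : IsCompact K) (L : E2 ≃ₗᵢ[ℝ] E2) {t u a b : ℝ}
    (ht : (slice K L t).Nonempty) (hu : (slice K L u).Nonempty) (ha : 0 ≤ a) (hb : 0 ≤ b)
    (hab : a + b = 1) : a * sec K L t ≤ sec K L (a * t + b * u) := by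
  obtain ⟨p, q, hpq, hI, hsec⟩ := slice_Icc hK hKc L ht
  obtain ⟨v, hv⟩ := hu
  have h1 : Set.Icc (a * p + b * v) (a * q + b * v) ⊆ slice K L (a * t + b * u) := by
    intro x hx
    have hp := slice_convex hK L (hI ▸ Set.left_mem_Icc.2 hpq : p ∈ slice K L t) hv ha hb hab
    have hq := slice_convex hK L (hI ▸ Set.right_mem_Icc.2 hpq : q ∈ slice K L t) hv ha hb hab
    obtain ⟨c, d, -, hJ, -⟩ := slice_Icc hK hKc L ⟨_, hp⟩
    rw [hJ] at hp hq ⊢
    exact ⟨hp.1.trans hx.1, hx.2.trans hq.2⟩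
  have h2 := sec_mono hKc.isBounded L h1
  rw [Real.volume_Icc, ENNReal.toReal_ofReal (by nlinarith)] at h2
  rw [hsec]
  linarith

/-- upper bound for the sections of a compact convex set near `t` -/
theorem sec_upper {K : Set E2} (hK : Convex ℝ K) (hKc : IsCompact K) (L : E2 ≃ₗᵢ[ℝ] E2) {t ε : ℝ}
    (ht : (slice K L t).Nonempty) (hε : 0 < ε) :
    ∀ᶠ u in 𝓝 t, sec K L u ≤ sec K L t + 2 * ε := by
  obtain ⟨p, q, hpq, hI, hsec⟩ := slice_Icc hK hKc L ht
  set Z : Set (ℝ × ℝ) := cf K L ∩ {x | x.2 ≤ p - ε ∨ q + ε ≤ x.2} with hZ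
  have hZc : IsCompact Z := by
    refine (cf_compact hKc L).inter_right ?_
    exact (isClosed_le continuous_snd continuous_const).union
      (isClosed_le continuous_const continuous_snd)
  have hZ1 : IsClosed (Prod.fst '' Z) := (hZc.image continuous_fst).isClosed
  have ht' : t ∉ Prod.fst '' Z := by
    rintro ⟨⟨t', s⟩, ⟨h1, h2⟩, rfl⟩
    have h3 : s ∈ slice K L t' := h1
    rw [hI] at h3
    rcases h2 with h2 | h2
    · have : s ≤ p - ε := h2
      linarith [h3.1]
    · have : q + ε ≤ s := h2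
      linarith [h3.2]
  filter_upwards [hZ1.isOpen_compl.mem_nhds ht'] with u hu
  have h4 : slice K L u ⊆ Set.Icc (p - ε) (q + ε) := by
    intro s hs
    by_contra hcon
    refine hu ⟨(u, s), ⟨hs, ?_⟩, rfl⟩
    rw [Set.mem_Icc, not_and_or, not_le, not_le] at hcon
    exact hcon.imp le_of_lt le_of_lt
  have h5 : sec K L u ≤ (volume (Set.Icc (p - ε) (q + ε))).toReal :=
    ENNReal.toReal_mono (by rw [Real.volume_Icc]; exact ENNReal.ofReal_ne_top) (measure_mono h4)
  rw [Real.volume_Icc, ENNReal.toReal_ofReal (by linarith)] at h5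
  rw [hsec]
  linarith

end Pool.Agent.RepJump
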