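import Mathlib

/-!
# Functions which are continuous up to finitely many jumps
-/

set_option autoImplicit false

namespace Pool.Agent.RepJump

open MeasureTheory Filter Topology

/-- The step function with the jump `c x` at `x`. -/
noncomputable def step (c : ℝ →₀ ℝ) (t : ℝ) : ℝ := c.sum fun x a => if x ≤ t then a else 0

/-- The sum of the jumps. -/
noncomputable def total (c : ℝ →₀ ℝ) : ℝ := c.sum fun _ a => a

/-- `A` is almost everywhere the sum of a continuous function and a step function with finitely many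
jumps, and `h` is the sum of the jumps. -/
def HasJump (A : ℝ → ℝ) (h : ℝ) : Prop :=
  ∃ φ : ℝ → ℝ, Continuous φ ∧ ∃ c : ℝ →₀ ℝ, (∀ᵐ t : ℝ, A t = φ t + step c t) ∧ h = total c

theorem step_add (c d : ℝ →₀ ℝ) (t : ℝ) : step (c + d) t = step c t + step d t := by
  unfold step
  refine Finsupp.sum_add_index' (fun x => by simp) (fun x a b => ?_)
  split_ifs <;> simp

theorem total_add (c d : ℝ →₀ ℝ) : total (c + d) = total c + total d := by
  unfold total
  exact Finsupp.sum_add_index' (fun _ => rfl) (fun _ _ _ => rfl)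

theorem step_zero (t : ℝ) : step 0 t = 0 := by simp [step]

theorem total_zero : total 0 = 0 := by simp [total]

theorem step_smul (r : ℝ) (c : ℝ →₀ ℝ) (t : ℝ) : step (r • c) t = r * step c t := by
  unfold step
  rw [Finsupp.sum_smul_index (by simp), Finsupp.mul_sum]
  refine Finset.sum_congr rfl fun x _ => ?_
  dsimp only
  split_ifs <;> simp

theorem total_smul (r : ℝ) (c : ℝ →₀ ℝ) : total (r • c) = r * total c := by
  unfold total
  rw [Finsupp.sum_smul_index (by simp), Finsupp.mul_sum]

theorem HasJump.add {A B : ℝ → ℝ} {h k : ℝ} (hA : HasJump A h) (hB : HasJump B k) :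
    HasJump (fun t => A t + B t) (h + k) := by
  obtain ⟨φ, hφ, c, h1, rfl⟩ := hA
  obtain ⟨ψ, hψ, d, h2, rfl⟩ := hB
  refine ⟨fun t => φ t + ψ t, hφ.add hψ, c + d, ?_, (total_add c d).symm⟩
  filter_upwards [h1, h2] with t e1 e2
  rw [e1, e2, step_add]
  ring

theorem HasJump.zero : HasJump (fun _ => 0) 0 :=
  ⟨fun _ => 0, continuous_const, 0, Eventually.of_forall fun t => by simp [step_zero], total_zero.symm⟩

theorem HasJump.sum {ι : Type} (s : Finset ι) {A : ι → ℝ → ℝ} {h : ι → ℝ}
    (hA : ∀ i ∈ s, HasJump (A i) (h i)) : HasJump (fun t => ∑ i ∈ s, A i t) (∑ i ∈ s, h i) := by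
  classical
  induction s using Finset.induction_on with
  | empty => simpa using HasJump.zero
  | insert a s ha ih =>
    have h1 := (hA a (Finset.mem_insert_self a s)).add
      (ih fun i hi => hA i (Finset.mem_insert_of_mem hi))
    simpa [Finset.sum_insert ha] using h1

theorem HasJump.congr {A B : ℝ → ℝ} {h : ℝ} (hA : HasJump A h) (hAB : ∀ᵐ t : ℝ, A t = B t) :
    HasJump B h := by
  obtain ⟨φ, hφ, c, h1, h2⟩ := hA
  refine ⟨φ, hφ, c, ?_, h2⟩
  filter_upwards [h1, hAB] with t e1 e2
  rw [← e2, e1]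

/-- Almost all `t` are such that `r⁻¹ t + b` has a property which almost all numbers have. -/
theorem ae_affine {p : ℝ → Prop} (hp : ∀ᵐ t : ℝ, p t) {r : ℝ} (hr : r ≠ 0) (b : ℝ) :
    ∀ᵐ t : ℝ, p (r⁻¹ * t + b) := by
  have h0 : volume {t : ℝ | ¬ p t} = 0 := ae_iff.1 hp
  rw [ae_iff]
  have h1 : {t : ℝ | ¬ p (r⁻¹ * t + b)} = (fun t => r⁻¹ * t) ⁻¹' ((fun t => t + b) ⁻¹' {t | ¬ p t}) :=
    rfl
  rw [h1, Real.volume_preimage_mul_left (inv_ne_zero hr), measure_preimage_add_right, h0, mul_zero]

theorem HasJump.affine {A : ℝ → ℝ} {h : ℝ} (hA : HasJump A h) {r : ℝ} (hr : 0 < r) (b : ℝ) :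
    HasJump (fun t => r * A (r⁻¹ * t + b)) (r * h) := by
  obtain ⟨φ, hφ, c, h1, rfl⟩ := hA
  refine ⟨fun t => r * φ (r⁻¹ * t + b), by fun_prop, r • c.mapDomain (fun x => r * (x - b)), ?_, ?_⟩
  · filter_upwards [ae_affine h1 hr.ne' b] with t e1
    rw [e1, step_smul, mul_add]
    congr 2
    unfold step
    rw [Finsupp.sum_mapDomain_index (by simp) (fun x a b => by split_ifs <;> simp)]
    refine Finset.sum_congr rfl fun x _ => ?_
    have e2 : x ≤ r⁻¹ * t + b ↔ r * (x - b) ≤ t := by
      rw [← sub_le_iff_le_add, inv_mul_eq_div, le_div_iff₀ hr, mul_comm]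
    simp only [e2]
  · rw [total_smul]
    unfold total
    rw [Finsupp.sum_mapDomain_index (by simp) (fun x a b => rfl)]

/-- A continuous function which is almost everywhere a step function has no jumps. -/
theorem eq_zero_of_step {φ : ℝ → ℝ} (hφ : Continuous φ) {e : ℝ →₀ ℝ}
    (h : ∀ᵐ t : ℝ, φ t = step e t) : e = 0 := by
  have hL : ∀ x, ∃ᶠ t in 𝓝[<] x, φ t = step e t := by
    intro x hcon
    obtain ⟨a, ha, hsub⟩ := mem_nhdsLT_iff_exists_Ioo_subset.1 hcon
    have h0 : volume (Set.Ioo a x) = 0 := measure_mono_null hsub (ae_iff.1 h)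
    rw [Real.volume_Ioo, ENNReal.ofReal_eq_zero] at h0
    have : a < x := ha
    linarith
  have hR : ∀ x, ∃ᶠ t in 𝓝[>] x, φ t = step e t := by
    intro x hcon
    obtain ⟨a, ha, hsub⟩ := mem_nhdsGT_iff_exists_Ioo_subset.1 hcon
    have h0 : volume (Set.Ioo x a) = 0 := measure_mono_null hsub (ae_iff.1 h)
    rw [Real.volume_Ioo, ENNReal.ofReal_eq_zero] at h0
    have : x < a := ha
    linarith
  ext x
  have hl : Tendsto (step e) (𝓝[<] x) (𝓝 (e.sum fun y a => if y < x then a else 0)) := by
    unfold step Finsupp.sum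
    refine tendsto_finsetSum _ fun y _ => ?_
    refine tendsto_const_nhds.congr' ?_
    rcases lt_or_ge y x with hy | hy
    · have : ∀ᶠ t in 𝓝[<] x, y < t := mem_nhdsWithin_of_mem_nhds (lt_mem_nhds hy)
      filter_upwards [this] with t ht
      rw [if_pos hy, if_pos ht.le]
    · filter_upwards [self_mem_nhdsWithin] with t ht
      have ht' : t < x := ht
      rw [if_neg (not_lt.2 hy), if_neg (by linarith)]
  have hr : Tendsto (step e) (𝓝[>] x) (𝓝 (e.sum fun y a => if y ≤ x then a else 0)) := by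
    unfold step Finsupp.sum
    refine tendsto_finsetSum _ fun y _ => ?_
    refine tendsto_const_nhds.congr' ?_
    rcases le_or_gt y x with hy | hy
    · filter_upwards [self_mem_nhdsWithin] with t ht
      have ht' : x < t := ht
      rw [if_pos hy, if_pos (by linarith)]
    · have : ∀ᶠ t in 𝓝[>] x, t < y := mem_nhdsWithin_of_mem_nhds (gt_mem_nhds hy)
      filter_upwards [this] with t ht
      rw [if_neg (not_le.2 hy), if_neg (not_le.2 ht)]
  have e1 := tendsto_nhds_unique_of_frequently_eq (hφ.continuousAt.mono_left nhdsWithin_le_nhds)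
    hl (hL x)
  have e2 := tendsto_nhds_unique_of_frequently_eq (hφ.continuousAt.mono_left nhdsWithin_le_nhds)
    hr (hR x)
  have e3 : (e.sum fun y a => if y ≤ x then a else 0) - (e.sum fun y a => if y < x then a else 0) =
      e x := by
    unfold Finsupp.sum
    rw [← Finset.sum_sub_distrib]
    have h4 : ∀ y ∈ e.support, ((if y ≤ x then e y else 0) - if y < x then e y else 0) =
        if y = x then e y else 0 := by
      intro y _
      rcases lt_trichotomy y x with hy | hy | hy
      · simp [hy, hy.le, hy.ne]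
      · simp [hy]
      · simp [hy.ne', not_le.2 hy, not_lt.2 hy.le]
    rw [Finset.sum_congr rfl h4, Finset.sum_ite_eq']
    split_ifs with h5
    · rfl
    · exact (Finsupp.notMem_support_iff.1 h5).symm
  rw [← e3, ← e1, ← e2, sub_self]
  rfl

/-- The total jump is unique. -/
theorem HasJump.unique {A : ℝ → ℝ} {h k : ℝ} (hA : HasJump A h) (hB : HasJump A k) : h = k := by
  obtain ⟨φ, hφ, c, h1, rfl⟩ := hA
  obtain ⟨ψ, hψ, d, h2, rfl⟩ := hB
  have h3 : c + (-1 : ℝ) • d = 0 := by
    refine eq_zero_of_step (φ := fun t => ψ t - φ t) (hψ.sub hφ) ?_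
    filter_upwards [h1, h2] with t e1 e2
    rw [step_add, step_smul]
    linarith
  have h4 := total_add c ((-1 : ℝ) • d)
  rw [h3, total_zero, total_smul] at h4
  linarith

end Pool.Agent.RepJump
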