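import Pool.Agent.RepJump.Conv

/-!
# Finite unions of compact convex sets have total jumps
-/

set_option autoImplicit false

namespace Pool.Agent.RepJump

open MeasureTheory Filter Topology RepTile

theorem sec_cwa {K : Set E2} (hK : Convex ℝ K) (hKc : IsCompact K) (L : E2 ≃ₗᵢ[ℝ] E2) {t w : ℝ}
    (ht : (slice K L t).Nonempty) (hw : (slice K L w).Nonempty) :
    ContinuousWithinAt (sec K L) (Set.uIcc t w) t := by
  rcases eq_or_ne w t with rfl | hne
  · rw [Set.uIcc_self]
    exact continuousWithinAt_singleton
  have hne' : w - t ≠ 0 := sub_ne_zero.2 hne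
  have hlow : ∀ u ∈ Set.uIcc t w, (1 - (u - t) / (w - t)) * sec K L t ≤ sec K L u := by
    intro u hu
    have h01 : 0 ≤ (u - t) / (w - t) ∧ (u - t) / (w - t) ≤ 1 := by
      rcases lt_or_gt_of_ne hne with h | h
      · rw [Set.uIcc_of_ge h.le] at hu
        have h1 : w - t < 0 := by linarith
        exact ⟨div_nonneg_of_nonpos (by linarith [hu.2]) h1.le,
          by rw [div_le_one_of_neg h1]; linarith [hu.1]⟩
      · rw [Set.uIcc_of_le h.le] at hu
        have h1 : 0 < w - t := by linarith
        exact ⟨div_nonneg (by linarith [hu.1]) h1.le, by rw [div_le_one h1]; linarith [hu.2]⟩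
    have h2 := sec_lower hK hKc L ht hw (a := 1 - (u - t) / (w - t)) (b := (u - t) / (w - t))
      (by linarith [h01.2]) h01.1 (by ring)
    have e : (1 - (u - t) / (w - t)) * t + (u - t) / (w - t) * w = u := by
      field_simp
      ring
    rw [e] at h2
    exact h2
  have hg : Tendsto (fun u => (1 - (u - t) / (w - t)) * sec K L t) (𝓝[Set.uIcc t w] t)
      (𝓝 (sec K L t)) := by
    have h1 : Continuous fun u => (1 - (u - t) / (w - t)) * sec K L t := by fun_prop
    have h2 := h1.tendsto t
    simp only [sub_self, zero_div, sub_zero, one_mul] at h2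
    exact h2.mono_left nhdsWithin_le_nhds
  refine tendsto_order.2 ⟨fun a ha => ?_, fun a ha => ?_⟩
  · filter_upwards [(tendsto_order.1 hg).1 a ha, self_mem_nhdsWithin] with u h1 h2
    exact h1.trans_le (hlow u h2)
  · have h1 := sec_upper hK hKc L ht (ε := (a - sec K L t) / 4) (by linarith)
    filter_upwards [mem_nhdsWithin_of_mem_nhds h1] with u h2
    linarith

theorem hasJump_convex {K : Set E2} (hK : Convex ℝ K) (hKc : IsCompact K) (L : E2 ≃ₗᵢ[ℝ] E2) :
    ∃ x, HasJump (sec K L) x := by
  have hzero : ∀ t, ¬ (slice K L t).Nonempty → sec K L t = 0 := by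
    intro t ht
    rw [sec_eq, Set.not_nonempty_iff_eq_empty.1 ht]
    simp
  rcases K.eq_empty_or_nonempty with rfl | hne
  · refine ⟨0, HasJump.zero.congr (Eventually.of_forall fun t => (hzero t ?_).symm)⟩
    rintro ⟨s, hs⟩
    exact hs
  set I : Set ℝ := Prod.fst '' cf K L with hI
  have hmem : ∀ t, t ∈ I ↔ (slice K L t).Nonempty := by
    intro t
    constructor
    · rintro ⟨⟨t', s⟩, h, rfl⟩
      exact ⟨s, h⟩
    · rintro ⟨s, hs⟩
      exact ⟨(t, s), hs, rfl⟩
  have hIc : IsCompact I := (cf_compact hKc L).image continuous_fst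
  have hIne : I.Nonempty := by
    obtain ⟨x, hx⟩ := hne
    refine ⟨_, inv L x, ?_, rfl⟩
    show par L (inv L x) ∈ K
    rw [par_inv]
    exact hx
  have hIconv : Convex ℝ I := by
    intro t ht u hu a b ha hb hab
    rw [hmem] at ht hu ⊢
    obtain ⟨s, hs⟩ := ht
    obtain ⟨v, hv⟩ := hu
    exact ⟨_, slice_convex hK L hs hv ha hb hab⟩
  obtain ⟨t0, t1, hI'⟩ : ∃ a b : ℝ, I = Set.Icc a b :=
    ⟨_, _, eq_Icc_of_connected_compact ⟨hIne, hIconv.isPreconnected⟩ hIc⟩
  have hle : t0 ≤ t1 := by
    obtain ⟨x, hx⟩ := hIne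
    rw [hI'] at hx
    exact hx.1.trans hx.2
  have hn : ∀ t ∈ Set.Icc t0 t1, (slice K L t).Nonempty := by
    intro t ht
    rw [← hmem, hI']
    exact ht
  have hcont : ContinuousOn (sec K L) (Set.Icc t0 t1) := by
    intro t ht
    have h1 := sec_cwa hK hKc L (hn t ht) (hn t0 (Set.left_mem_Icc.2 hle))
    have h2 := sec_cwa hK hKc L (hn t ht) (hn t1 (Set.right_mem_Icc.2 hle))
    refine (h1.union h2).mono ?_
    intro u hu
    rcases le_total u t with h | h
    · left
      rw [Set.uIcc_of_ge ht.1]
      exact ⟨hu.1, h⟩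
    · right
      rw [Set.uIcc_of_le ht.2]
      exact ⟨h, hu.2⟩
  set φ : ℝ → ℝ := Set.IccExtend hle ((Set.Icc t0 t1).domRestrict (sec K L)) with hφ
  have hφc : Continuous φ := hcont.domRestrict.Icc_extend'
  refine ⟨_, fun t => φ t - sec K L t0, hφc.sub continuous_const,
    Finsupp.single t0 (sec K L t0) + Finsupp.single t1 (-sec K L t1), ?_, rfl⟩
  have hae : ∀ᵐ t : ℝ, t ≠ t1 := by
    rw [ae_iff]
    have : {t : ℝ | ¬ t ≠ t1} = {t1} := by ext t; simp
    rw [this]
    exact Real.volume_singleton
  have hst : ∀ (y a t : ℝ), step (Finsupp.single y a) t = if y ≤ t then a else 0 := by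
    intro y a t
    unfold step
    rw [Finsupp.sum_single_index]
    split_ifs <;> rfl
  filter_upwards [hae] with t ht
  rw [step_add, hst, hst]
  rcases lt_or_ge t t0 with h | h
  · have e1 : φ t = sec K L t0 := by
      rw [hφ, Set.IccExtend_of_le_left hle _ h.le]
      rfl
    have e2 : sec K L t = 0 := by
      refine hzero t fun hcon => ?_
      rw [← hmem, hI'] at hcon
      linarith [hcon.1]
    rw [if_neg (not_le.2 h), if_neg (by linarith), e1, e2]
    ring
  · rcases lt_or_ge t t1 with h' | h'
    · have e1 : φ t = sec K L t := by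
        rw [hφ, Set.IccExtend_of_mem hle _ ⟨h, h'.le⟩]
        rfl
      rw [if_pos h, if_neg (not_le.2 h'), e1]
      ring
    · have h'' : t1 < t := lt_of_le_of_ne h' (Ne.symm ht)
      have e1 : φ t = sec K L t1 := by
        rw [hφ, Set.IccExtend_of_right_le hle _ h']
        rfl
      have e2 : sec K L t = 0 := by
        refine hzero t fun hcon => ?_
        rw [← hmem, hI'] at hcon
        linarith [hcon.2]
      rw [if_pos h, if_pos h', e1, e2]
      ring

/-- A union of finitely many compact convex sets with disjoint interiors has total jumps. -/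
theorem hasJump_union {k : ℕ} {K : Fin k → Set E2} (hK : ∀ i, Convex ℝ (K i))
    (hKc : ∀ i, IsCompact (K i))
    (hd : Pairwise fun i j => Disjoint (interior (K i)) (interior (K j))) (L : E2 ≃ₗᵢ[ℝ] E2) :
    ∃ x, HasJump (sec (⋃ i, K i) L) x := by
  have hU : IsCompact (⋃ i, K i) := isCompact_iUnion hKc
  have hvi : ∀ i, volume (interior (K i)) = volume (K i) := by
    intro i
    refine le_antisymm (measure_mono interior_subset) ?_
    have h1 : K i ⊆ interior (K i) ∪ frontier (K i) := by
      rw [← closure_eq_interior_union_frontier]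
      exact subset_closure
    refine (measure_mono h1).trans ((measure_union_le _ _).trans ?_)
    rw [(hK i).addHaar_frontier volume, add_zero]
  have hV : ∑ i, volume (K i) = volume (⋃ i, K i) := by
    refine le_antisymm ?_ ?_
    · have h1 : volume (⋃ i, interior (K i)) = ∑' i, volume (interior (K i)) :=
        measure_iUnion hd fun i => isOpen_interior.measurableSet
      rw [tsum_fintype] at h1
      simp only [hvi] at h1
      rw [← h1]
      exact measure_mono (Set.iUnion_mono fun i => interior_subset)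
    · refine (measure_iUnion_le _).trans ?_
      rw [tsum_fintype]
  choose x hx using fun i => hasJump_convex (hK i) (hKc i) L
  refine ⟨_, (HasJump.sum Finset.univ fun i _ => hx i).congr ?_⟩
  filter_upwards [sec_union hU.isBounded hU.measurableSet (fun i => (hKc i).measurableSet) rfl hV
    hU.measure_lt_top.ne L] with t ht
  exact ht.symm

end Pool.Agent.RepJump
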