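import Pool.Agent.RepPara.Meas
import Pool.Agent.RepJump.Jump

/-!
# Section lengths of plane sets
-/

set_option autoImplicit false

namespace Pool.Agent.RepJump

open MeasureTheory Filter Topology RepTile

/-- The length of the section of `S` by the line `{L (t, s) : s ∈ ℝ}`. -/
noncomputable def sec (S : Set E2) (L : E2 ≃ₗᵢ[ℝ] E2) (t : ℝ) : ℝ :=
  (volume {s : ℝ | L !₂[t, s] ∈ S}).toReal

/-- The parametrisation of the plane by `L`. -/
noncomputable def par (L : E2 ≃ₗᵢ[ℝ] E2) (p : ℝ × ℝ) : E2 := L !₂[p.1, p.2]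

theorem par_measurePreserving (L : E2 ≃ₗᵢ[ℝ] E2) : MeasurePreserving (par L) := by
  have h1 := (volume_preserving_finTwoArrow ℝ).symm
  have h2 := PiLp.volume_preserving_toLp (Fin 2)
  exact L.measurePreserving.comp (h2.comp h1)

theorem lintegral_sec {S : Set E2} (hS : MeasurableSet S) (L : E2 ≃ₗᵢ[ℝ] E2) :
    ∫⁻ t : ℝ, volume {s : ℝ | L !₂[t, s] ∈ S} = volume S := by
  have h1 := (par_measurePreserving L).measure_preimage hS.nullMeasurableSet
  have h2 : MeasurableSet (par L ⁻¹' S) := (par_measurePreserving L).measurable hS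
  rw [← h1, Measure.volume_eq_prod, Measure.prod_apply h2]
  rfl

theorem measurable_sec {S : Set E2} (hS : MeasurableSet S) (L : E2 ≃ₗᵢ[ℝ] E2) :
    Measurable fun t : ℝ => volume {s : ℝ | L !₂[t, s] ∈ S} :=
  measurable_measure_prodMk_left ((par_measurePreserving L).measurable hS)

/-- Sections of a bounded set are finite. -/
theorem sec_finite {S : Set E2} (hS : Bornology.IsBounded S) (L : E2 ≃ₗᵢ[ℝ] E2) (t : ℝ) :
    volume {s : ℝ | L !₂[t, s] ∈ S} ≠ ⊤ := by
  obtain ⟨R, hR⟩ := hS.exists_norm_le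
  refine ((measure_mono (t := Set.Icc (-R) R) fun s hs => ?_).trans_lt ?_).ne
  · have h1 : ‖L !₂[t, s]‖ ≤ R := hR _ hs
    rw [L.norm_map] at h1
    have h2 : ‖(!₂[t, s] : E2) 1‖ ≤ ‖(!₂[t, s] : E2)‖ := PiLp.norm_apply_le _ _
    have h3 : |s| ≤ R := by
      have h4 : ‖(!₂[t, s] : E2) 1‖ = |s| := by simp
      rw [h4] at h2
      exact h2.trans h1
    exact abs_le.1 h3
  · rw [Real.volume_Icc]
    exact ENNReal.ofReal_lt_top

/-- Sections are additive over pieces whose areas add up. -/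
theorem sec_union {n : ℕ} {T : Set E2} (hT : Bornology.IsBounded T) (hTm : MeasurableSet T)
    {P : Fin n → Set E2} (hPm : ∀ i, MeasurableSet (P i)) (hU : T = ⋃ i, P i)
    (hV : ∑ i, volume (P i) = volume T) (hTv : volume T ≠ ⊤) (L : E2 ≃ₗᵢ[ℝ] E2) :
    ∀ᵐ t : ℝ, sec T L t = ∑ i, sec (P i) L t := by
  have hb : ∀ i, Bornology.IsBounded (P i) := fun i =>
    hT.subset (by rw [hU]; exact Set.subset_iUnion P i)
  have h1 : ∀ t : ℝ, volume {s : ℝ | L !₂[t, s] ∈ T} ≤
      ∑ i, volume {s : ℝ | L !₂[t, s] ∈ P i} := by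
    intro t
    have e1 : {s : ℝ | L !₂[t, s] ∈ T} = ⋃ i, {s : ℝ | L !₂[t, s] ∈ P i} := by
      ext s
      rw [hU]
      simp
    rw [e1]
    refine (measure_iUnion_le _).trans ?_
    rw [tsum_fintype]
  have h2 : ∫⁻ t : ℝ, ∑ i, volume {s : ℝ | L !₂[t, s] ∈ P i} = volume T := by
    rw [lintegral_finsetSum _ fun i _ => measurable_sec (hPm i) L, ← hV]
    exact Finset.sum_congr rfl fun i _ => lintegral_sec (hPm i) L
  have h3 := ae_eq_of_ae_le_of_lintegral_le (μ := (volume : Measure ℝ))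
    (Eventually.of_forall h1) (by rw [lintegral_sec hTm L]; exact hTv)
    (Finset.measurable_fun_sum _ fun i _ => measurable_sec (hPm i) L).aemeasurable
    (by rw [h2, lintegral_sec hTm L])
  filter_upwards [h3] with t ht
  unfold sec
  rw [ht, ENNReal.toReal_sum fun i _ => sec_finite (hb i) L t]

/-- Sections of a similar image. -/
theorem sec_sim (S : Set E2) {r : ℝ} (hr : 0 < r) (g : E2 ≃ᵢ E2) (L : E2 ≃ₗᵢ[ℝ] E2) :
    ∃ (L' : E2 ≃ₗᵢ[ℝ] E2) (b : ℝ), ∀ t, sec (sim r g '' S) L t = r * sec S L' (r⁻¹ * t + b) := by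
  set B := g.toRealAffineIsometryEquiv.linearIsometryEquiv with hB
  have hg : ∀ x, g x = B x + g 0 := by
    intro x
    have := g.toRealAffineIsometryEquiv.map_vadd 0 x
    simpa using this
  set w : E2 := L.symm (g 0) with hw
  refine ⟨L.trans B.symm, -w 0, fun t => ?_⟩
  have h1 : {s : ℝ | L !₂[t, s] ∈ sim r g '' S} =
      (fun s => r⁻¹ * s) ⁻¹' ((fun s => s + -w 1) ⁻¹'
        {s : ℝ | (L.trans B.symm) !₂[r⁻¹ * t + -w 0, s] ∈ S}) := by
    ext s
    have h2 : ∀ y : E2, sim r g y = L !₂[t, s] ↔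
        y = (L.trans B.symm) !₂[r⁻¹ * t + -w 0, r⁻¹ * s + -w 1] := by
      intro y
      have h3 : (!₂[r⁻¹ * t + -w 0, r⁻¹ * s + -w 1] : E2) = r⁻¹ • !₂[t, s] - w := by
        ext i
        fin_cases i <;> simp [sub_eq_add_neg]
      rw [h3, LinearIsometryEquiv.trans_apply, map_sub, map_smul, hw, L.apply_symm_apply,
        LinearIsometryEquiv.eq_symm_apply]
      show r • g y = L !₂[t, s] ↔ _
      rw [hg y]
      constructor
      · intro h
        rw [← h, smul_smul, inv_mul_cancel₀ hr.ne', one_smul, add_sub_cancel_right]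
      · intro h
        rw [h, sub_add_cancel, smul_smul, mul_inv_cancel₀ hr.ne', one_smul]
    constructor
    · rintro ⟨y, hy, h⟩
      have := (h2 y).1 h
      show (L.trans B.symm) !₂[r⁻¹ * t + -w 0, r⁻¹ * s + -w 1] ∈ S
      rw [← this]
      exact hy
    · intro h
      exact ⟨_, h, (h2 _).2 rfl⟩
  unfold sec
  rw [h1, Real.volume_preimage_mul_left (inv_ne_zero hr.ne'), measure_preimage_add_right, inv_inv,
    abs_of_pos hr, ENNReal.toReal_mul, ENNReal.toReal_ofReal hr.le]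

end Pool.Agent.RepJump
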